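import Pool.Agent.V5helper38.EP.Stm

/-!
# Project EP, job BASE: recursively enumerable sets are halting sets of counter programs
-/

set_option autoImplicit false

namespace Pool.Agent.V5helper65.EP

open Function Pool.Agent.Helper707.Prog Pool.Agent.Helper707.Flat
open Pool.Agent.V5helper38.EP (bd Ok Halts S_BASE)

/-- all targets are at most `L` -/
def tg (L : ℕ) : Ins → Prop
  | .inc _ t => t ≤ L
  | .dec _ t t' => t ≤ L ∧ t' ≤ L
  | .jmp t => t ≤ L

theorem tg_mono {L L' : ℕ} (h : L ≤ L') : ∀ a : Ins, tg L a → tg L' a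
  | .inc _ _, h1 => le_trans h1 h
  | .dec _ _ _, h1 => ⟨h1.1.trans h, h1.2.trans h⟩
  | .jmp _, h1 => le_trans h1 h

theorem tg_code (c : Cmd) : ∀ (o : ℕ), ∀ a ∈ code c o, tg (o + len c) a := by
  induction c with
  | nop => intro o a ha; simp [code] at ha
  | inc r =>
    intro o a ha
    simp only [code, List.mem_singleton] at ha
    subst ha
    exact le_rfl
  | seq c d ihc ihd =>
    intro o a ha
    simp only [code, List.mem_append] at ha
    rcases ha with ha | ha
    · exact tg_mono (by simp only [len]; omega) a (ihc o a ha)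
    · exact tg_mono (by simp only [len]; omega) a (ihd _ a ha)
  | loop r c ih =>
    intro o a ha
    simp only [code, List.mem_cons, List.mem_append, List.not_mem_nil, or_false] at ha
    rcases ha with ha | ha | ha
    · subst ha
      exact ⟨by simp only [len]; omega, by simp only [len]; omega⟩
    · exact tg_mono (by simp only [len]; omega) a (ih _ a ha)
    · subst ha
      show o ≤ _
      omega

theorem step_le {P : List Ins} {L : ℕ} (h : ∀ a ∈ P, tg L a) (x : ℕ × (ℕ → ℕ)) (hx : x.1 ≤ L) :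
    (step P x).1 ≤ L := by
  unfold step
  rcases hP : P[x.1]? with _ | a
  · exact hx
  · have ha : a ∈ P := List.mem_of_getElem? hP
    have h1 := h a ha
    rcases a with ⟨r, t⟩ | ⟨r, t, t'⟩ | t
    · exact h1
    · show (if x.2 r = 0 then (t', x.2) else (t, update x.2 r (x.2 r - 1))).1 ≤ L
      split_ifs
      · exact h1.2
      · exact h1.1
    · exact h1

theorem iter_le {P : List Ins} {L : ℕ} (h : ∀ a ∈ P, tg L a) (x : ℕ × (ℕ → ℕ)) (hx : x.1 ≤ L)
    (n : ℕ) : ((step P)^[n] x).1 ≤ L := by
  induction n with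
  | zero => exact hx
  | succ n ih =>
    rw [iterate_succ_apply']
    exact step_le h _ ih

theorem bd_mono {K K' : ℕ} (h : K ≤ K') : ∀ a : Ins, bd K a → bd K' a
  | .inc _ _, h1 => ⟨h1.1.trans_le h, h1.2.trans_le h⟩
  | .dec _ _ _, h1 => ⟨h1.1.trans_le h, h1.2.1.trans_le h, h1.2.2.trans_le h⟩
  | .jmp _, h1 => lt_of_lt_of_le h1 h

theorem exists_bd : ∀ P : List Ins, ∃ K : ℕ, ∀ a ∈ P, bd K a
  | [] => ⟨0, fun a ha => by simp at ha⟩
  | b :: P => by
    obtain ⟨K, hK⟩ := exists_bd P
    obtain ⟨K', hK'⟩ : ∃ K', bd K' b := by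
      rcases b with ⟨r, t⟩ | ⟨r, t, t'⟩ | t
      · exact ⟨r + t + 1, ⟨by omega, by omega⟩⟩
      · exact ⟨r + t + t' + 1, ⟨by omega, by omega, by omega⟩⟩
      · exact ⟨t + 1, Nat.lt_succ_self t⟩
    refine ⟨max K K', fun a ha => ?_⟩
    rcases List.mem_cons.1 ha with rfl | ha
    · exact bd_mono (le_max_right _ _) _ hK'
    · exact bd_mono (le_max_left _ _) _ (hK a ha)

/-- **BASE** -/
theorem t_BASE : S_BASE := by
  intro p hp
  -- a code
  have h1 : Partrec (fun a : ℕ => (Part.assert (p a) fun _ => Part.some ()).map fun _ => (0 : ℕ)) :=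
    hp.map (Computable.const 0).to₂
  obtain ⟨c, hc⟩ := Nat.Partrec.Code.exists_code.1 (Partrec.nat_iff.1 h1)
  have h2 : ∀ x, p x ↔ (c.eval x).Dom := by
    intro x
    rw [hc]
    simp [Part.assert]
  have h3 : ∀ x, p x ↔ ∃ k, (Nat.Partrec.Code.evaln k c x).isSome := by
    intro x
    rw [h2 x, Part.dom_iff_mem]
    constructor
    · rintro ⟨y, hy⟩
      obtain ⟨k, hk⟩ := Nat.Partrec.Code.evaln_complete.1 hy
      exact ⟨k, Option.isSome_iff_exists.2 ⟨y, hk⟩⟩
    · rintro ⟨k, hk⟩
      obtain ⟨y, hy⟩ := Option.isSome_iff_exists.1 hk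
      exact ⟨y, Nat.Partrec.Code.evaln_complete.2 ⟨k, hy⟩⟩
  -- a primitive recursive function
  let f : List.Vector ℕ 2 → ℕ := fun v =>
    if (Nat.Partrec.Code.evaln (v.get 0) c (v.get 1)).isSome = true then 0 else 1
  have hf : Primrec f := by
    have e1 : Primrec (fun v : List.Vector ℕ 2 => Nat.Partrec.Code.evaln (v.get 0) c (v.get 1)) :=
      Nat.Partrec.Code.primrec_evaln.comp
        (((Primrec.vector_get.comp Primrec.id (Primrec.const 0)).pair (Primrec.const c)).pair
          (Primrec.vector_get.comp Primrec.id (Primrec.const 1)))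
    have e2 : PrimrecPred (fun v : List.Vector ℕ 2 =>
        (Nat.Partrec.Code.evaln (v.get 0) c (v.get 1)).isSome = true) :=
      Primrec.eq.comp (Primrec.option_isSome.comp e1) (Primrec.const true)
    exact Primrec.ite e2 (Primrec.const 0) (Primrec.const 1)
  have hf' : Nat.Primrec' f := Nat.Primrec'.prim_iff.2 hf
  obtain ⟨body, hb⟩ := search hf'
  have h4 : ∀ x, p x ↔ ∃ T, ((step (code (prog body) 0))^[T] (0, sx x 0 0)).1 = len (prog body) := by
    intro x
    rw [← halting_iff hb x, h3 x]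
    refine exists_congr fun k => ?_
    show _ ↔ (if (Nat.Partrec.Code.evaln k c x).isSome = true then 0 else 1) = 0
    split_ifs with h <;> simp [h]
  obtain ⟨K, hK⟩ := exists_bd (code (prog body) 0)
  refine ⟨code (prog body) 0, max K ((code (prog body) 0).length + 1), ⟨?_, ?_⟩, fun x => ?_⟩
  · exact lt_of_lt_of_le (Nat.lt_succ_self _) (le_max_right _ _)
  · exact fun a ha => bd_mono (le_max_left _ _) a (hK a ha)
  · rw [h4 x]
    refine exists_congr fun n => ?_
    rw [List.getElem?_eq_none_iff, length_code]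
    constructor
    · intro h; exact h.ge
    · intro h
      refine le_antisymm ?_ h
      refine iter_le (fun a ha => ?_) _ (Nat.zero_le _) n
      have := tg_code (prog body) 0 a ha
      rwa [zero_add] at this

end Pool.Agent.V5helper65.EP

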