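import Pool.Agent.V5helper19.EP.Stm

/-!
# Project EP, job G: greedy containers
-/

set_option autoImplicit false

namespace Pool.Agent.V5helper65.EP.G

open Finset Configuration Pool.Agent.W5h2.DP V5helper19.EP

/-- **G** -/
theorem t_G (h : S_H) : S_G := by
  classical
  intro P L _ _ _ _ q n hq hn s J hs hJ
  have hH := h P L q n hq hn
  obtain ⟨X, hX⟩ : ∃ X : Finset P → Finset P, ∀ S, X S = univ.filter fun x =>
      2 * n * ((mis L S).filter fun l => x ∈ l).card < (mis L S).card * (q + 1) := ⟨_, fun _ => rfl⟩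
  have hn0 : 0 < n := by rw [hn]; positivity
  have hnR : (0 : ℝ) < n := by exact_mod_cast hn0
  obtain ⟨c, hc⟩ : ∃ c : ℝ, c = 1 - ((q : ℝ) + 1) / (2 * n) := ⟨_, rfl⟩
  have hc0 : 0 ≤ c := by
    rw [hc, sub_nonneg, div_le_one (by positivity)]
    have : q + 1 ≤ 2 * n := by rw [hn]; nlinarith
    exact_mod_cast this
  rw [← hc] at hJ
  refine ⟨X, fun A => ?_⟩
  have key : ∀ j : ℕ, ∃ S : Finset P, S ⊆ A ∧ S.card ≤ j ∧
      (((mis L S).card : ℝ) ≤ c ^ j * n ∨ A ⊆ X S) := by
    intro j
    induction j with
    | zero =>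
      refine ⟨∅, empty_subset _, by simp, Or.inl ?_⟩
      have h1 : (mis L (∅ : Finset P)).card ≤ Fintype.card L := card_le_univ _
      rw [ProjectivePlane.card_lines P L, ← hq, ← hn] at h1
      rw [pow_zero, one_mul]
      exact_mod_cast h1
    | succ j ih =>
      obtain ⟨S, hSA, hSj, hS⟩ := ih
      by_cases hA : A ⊆ X S
      · exact ⟨S, hSA, hSj.trans (Nat.le_succ _), Or.inr hA⟩
      · have h1 : ((mis L S).card : ℝ) ≤ c ^ j * n := hS.resolve_right hA
        rw [Finset.not_subset] at hA
        obtain ⟨a, haA, haX⟩ := hA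
        rw [hX, mem_filter, not_and, not_lt] at haX
        have h2 := haX (mem_univ a)
        refine ⟨insert a S, insert_subset haA hSA, (card_insert_le _ _).trans (by omega), Or.inl ?_⟩
        have h3 : mis L (insert a S) ⊆ (mis L S).filter fun l => ¬ a ∈ l := by
          intro l hl
          rw [mem_mis] at hl
          rw [mem_filter, mem_mis]
          exact ⟨fun p hp => hl p (mem_insert_of_mem hp), hl a (mem_insert_self _ _)⟩
        have h4 := card_le_card h3
        have h5 : ((mis L S).filter fun l => a ∈ l).card + ((mis L S).filter fun l => ¬ a ∈ l).card =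
            (mis L S).card := card_filter_add_card_filter_not _
        have h2R : ((mis L S).card : ℝ) * (q + 1) ≤ 2 * n * (((mis L S).filter fun l => a ∈ l).card : ℝ) := by
          exact_mod_cast h2
        have h4R : ((mis L (insert a S)).card : ℝ) ≤ (((mis L S).filter fun l => ¬ a ∈ l).card : ℝ) := by
          exact_mod_cast h4
        have h5R : (((mis L S).filter fun l => a ∈ l).card : ℝ) +
            (((mis L S).filter fun l => ¬ a ∈ l).card : ℝ) = ((mis L S).card : ℝ) := by
          exact_mod_cast h5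
        have h6 : ((mis L S).card : ℝ) * ((q + 1) / (2 * n)) ≤ (((mis L S).filter fun l => a ∈ l).card : ℝ) := by
          rw [← mul_div_assoc, div_le_iff₀ (by positivity)]
          linarith
        calc ((mis L (insert a S)).card : ℝ)
            ≤ (mis L S).card - (mis L S).card * ((q + 1) / (2 * n)) := by linarith
          _ = c * (mis L S).card := by rw [hc]; ring
          _ ≤ c * (c ^ j * n) := mul_le_mul_of_nonneg_left h1 hc0
          _ = c ^ (j + 1) * n := by rw [pow_succ]; ring
  obtain ⟨S, hSA, hSJ, hS⟩ := key J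
  refine ⟨S, hSA, hSJ, ?_⟩
  rcases hS with hS | hS
  · left
    have h1 : ((mis L S).card : ℝ) < 1 := lt_of_le_of_lt hS hJ
    have h2 : (mis L S).card < 1 := by exact_mod_cast h1
    omega
  · by_cases hm : (mis L S).card ≤ s
    · exact Or.inl hm
    · right
      refine ⟨hS, ?_⟩
      by_contra hcon
      have h1 : (X S).card * (mis L S).card * (q + 1) ^ 2 ≤ 4 * q * n ^ 2 := by
        by_contra h0
        obtain ⟨a, ha, ha2⟩ := hH (X S) (mis L S) (not_le.1 h0)
        rw [hX, mem_filter] at ha
        exact absurd ha2 (not_le.2 ha.2)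
      have h2 : (X S).card * (mis L S).card * (q + 1) ^ 2 ≤ s ^ 2 * (q + 1) ^ 2 := h1.trans hs
      have h3 : (X S).card * (mis L S).card ≤ s ^ 2 := Nat.le_of_mul_le_mul_right h2 (by positivity)
      have h4 : s + 1 ≤ (X S).card := by omega
      have h5 : s + 1 ≤ (mis L S).card := by omega
      have h6 : (s + 1) * (s + 1) ≤ (X S).card * (mis L S).card := Nat.mul_le_mul h4 h5
      nlinarith

end Pool.Agent.V5helper65.EP.G
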